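import Pool.Agent.K3h74.Torus.Normal

/-!
# The map `(s, θ, ρ) ↦ ρ n(s, θ)` and its Jacobian
-/

set_option autoImplicit false

open MeasureTheory Set
open scoped RealInnerProductSpace ContDiff ENNReal

namespace Pool.Agent.K3h74.Torus

lemma det_sq (T : E3 →L[ℝ] E3) :
    T.det ^ 2 =
      ⟪T (EuclideanSpace.single 0 1), T (EuclideanSpace.single 0 1)⟫ *
      ⟪T (EuclideanSpace.single 1 1), T (EuclideanSpace.single 1 1)⟫ *
      ⟪T (EuclideanSpace.single 2 1), T (EuclideanSpace.single 2 1)⟫ +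
      2 * ⟪T (EuclideanSpace.single 0 1), T (EuclideanSpace.single 1 1)⟫ *
      ⟪T (EuclideanSpace.single 1 1), T (EuclideanSpace.single 2 1)⟫ *
      ⟪T (EuclideanSpace.single 0 1), T (EuclideanSpace.single 2 1)⟫ -
      ⟪T (EuclideanSpace.single 0 1), T (EuclideanSpace.single 0 1)⟫ *
      ⟪T (EuclideanSpace.single 1 1), T (EuclideanSpace.single 2 1)⟫ ^ 2 -
      ⟪T (EuclideanSpace.single 1 1), T (EuclideanSpace.single 1 1)⟫ *
      ⟪T (EuclideanSpace.single 0 1), T (EuclideanSpace.single 2 1)⟫ ^ 2 -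
      ⟪T (EuclideanSpace.single 2 1), T (EuclideanSpace.single 2 1)⟫ *
      ⟪T (EuclideanSpace.single 0 1), T (EuclideanSpace.single 1 1)⟫ ^ 2 := by
  have h1 : T.det = (LinearMap.toMatrix (EuclideanSpace.basisFun (Fin 3) ℝ).toBasis
      (EuclideanSpace.basisFun (Fin 3) ℝ).toBasis (T : E3 →ₗ[ℝ] E3)).det := by
    rw [LinearMap.det_toMatrix]
  have h2 : ∀ i j, LinearMap.toMatrix (EuclideanSpace.basisFun (Fin 3) ℝ).toBasis
      (EuclideanSpace.basisFun (Fin 3) ℝ).toBasis (T : E3 →ₗ[ℝ] E3) i j =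
      (T (EuclideanSpace.single j 1)) i := by
    intro i j
    rw [LinearMap.toMatrix_apply]
    simp
  rw [h1, Matrix.det_fin_three]
  simp only [h2, inner3]
  ring

/-- the polar map of the normal -/
noncomputable def Phi (r : ℝ → ℝ) (f : P → E3) (x : E3) : E3 := x 2 • nor r f (x 0, x 1)

namespace Imm

variable {r r' r'' : ℝ → ℝ} {f : P → E3} (I : Imm r r' r'' f)

include I

lemma Phi_diff : Differentiable ℝ (Phi r f) := by
  have h2 : Differentiable ℝ (fun x : E3 => x 2) :=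
    (EuclideanSpace.proj (𝕜 := ℝ) (2 : Fin 3)).differentiable
  have h1 : Differentiable ℝ (fun x : E3 => x 1) :=
    (EuclideanSpace.proj (𝕜 := ℝ) (1 : Fin 3)).differentiable
  have h0 : Differentiable ℝ (fun x : E3 => x 0) :=
    (EuclideanSpace.proj (𝕜 := ℝ) (0 : Fin 3)).differentiable
  exact h2.smul (I.dn.comp (h0.prodMk h1))

lemma Phi_fderiv (x w : E3) : fderiv ℝ (Phi r f) x w =
    w 2 • nor r f (x 0, x 1) + x 2 • D (w 0, w 1) (nor r f) (x 0, x 1) := by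
  have h2 : HasFDerivAt (fun x : E3 => x 2) (EuclideanSpace.proj (𝕜 := ℝ) (2 : Fin 3) : E3 →L[ℝ] ℝ) x :=
    (EuclideanSpace.proj (𝕜 := ℝ) (2 : Fin 3) : E3 →L[ℝ] ℝ).hasFDerivAt
  have h1 : HasFDerivAt (fun x : E3 => x 1) (EuclideanSpace.proj (𝕜 := ℝ) (1 : Fin 3) : E3 →L[ℝ] ℝ) x :=
    (EuclideanSpace.proj (𝕜 := ℝ) (1 : Fin 3) : E3 →L[ℝ] ℝ).hasFDerivAt
  have h0 : HasFDerivAt (fun x : E3 => x 0) (EuclideanSpace.proj (𝕜 := ℝ) (0 : Fin 3) : E3 →L[ℝ] ℝ) x :=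
    (EuclideanSpace.proj (𝕜 := ℝ) (0 : Fin 3) : E3 →L[ℝ] ℝ).hasFDerivAt
  have h3 := h0.prodMk h1
  have h4 := (I.dn (x 0, x 1)).hasFDerivAt.comp x h3
  have h5 := h2.smul h4
  have h6 : HasFDerivAt (Phi r f) _ x := h5
  rw [h6.fderiv]
  simp [D, add_comm]

lemma Phi_det (x : E3) : |(fderiv ℝ (Phi r f) x).det| = x 2 ^ 2 * |r'' (x 0)| := by
  have h := det_sq (fderiv ℝ (Phi r f) x)
  have t0 : fderiv ℝ (Phi r f) x (EuclideanSpace.single 0 1) =
      x 2 • D e1 (nor r f) (x 0, x 1) := by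
    rw [I.Phi_fderiv]; simp [e1]
  have t1 : fderiv ℝ (Phi r f) x (EuclideanSpace.single 1 1) =
      x 2 • D e2 (nor r f) (x 0, x 1) := by
    rw [I.Phi_fderiv]; simp [e2]
  have t2 : fderiv ℝ (Phi r f) x (EuclideanSpace.single 2 1) = nor r f (x 0, x 1) := by
    rw [I.Phi_fderiv]
    have : D ((0 : ℝ), (0 : ℝ)) (nor r f) (x 0, x 1) = 0 := by
      unfold D
      exact map_zero _
    simp [this]
  rw [t0, t1, t2] at h
  simp only [real_inner_smul_left, real_inner_smul_right, I.nn, I.dnn] at h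
  have g := I.gram (x 0, x 1)
  have e : (fderiv ℝ (Phi r f) x).det ^ 2 = (x 2 ^ 2 * r'' (x 0)) ^ 2 := by
    rw [h]
    simp only at g
    linear_combination (x 2) ^ 4 * g
  have := congrArg Real.sqrt e
  rw [Real.sqrt_sq_eq_abs, Real.sqrt_sq_eq_abs, abs_mul, abs_of_nonneg (sq_nonneg (x 2))] at this
  exact this

end Imm

end Pool.Agent.K3h74.Torus
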