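import Pool.Agent.K3h74.Torus.Area

/-!
# Points of support
-/

set_option autoImplicit false

open MeasureTheory Set Filter Topology
open scoped RealInnerProductSpace ContDiff ENNReal

namespace Pool.Agent.K3h74.Torus

lemma deriv2_nonpos {φ : ℝ → ℝ} (hc : ContinuousAt φ 0) (h : IsLocalMax φ 0) :
    deriv (deriv φ) 0 ≤ 0 := by
  by_contra hpos
  push Not at hpos
  have h1 := isLocalMin_of_deriv_deriv_pos hpos h.deriv_eq_zero hc
  have h2 : φ =ᶠ[𝓝 0] fun _ => φ 0 := by
    filter_upwards [h, h1] with x a b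
    exact le_antisymm a b
  have h3 : deriv φ =ᶠ[𝓝 0] fun _ => 0 := by
    have := h2.deriv
    simpa using this
  have h4 := h3.deriv_eq
  simp at h4
  linarith

lemma D_smul_add {F : P → E3} (a b : ℝ) (p : P) :
    D (a, b) F p = a • D e1 F p + b • D e2 F p := by
  unfold D
  have : ((a, b) : P) = a • e1 + b • e2 := by
    simp [e1, e2]
  rw [this, map_add, map_smul, map_smul]

lemma D_line {F : P → E3} (hF : Differentiable ℝ F) (p w : P) (ν : E3) (t : ℝ) :
    HasDerivAt (fun t : ℝ => ⟪F (p + t • w), ν⟫) ⟪D w F (p + t • w), ν⟫ t := by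
  have h1 : HasDerivAt (fun t : ℝ => p + t • w) w t := by
    have := ((hasDerivAt_id t).smul_const w).const_add p
    simpa using this
  have h2 := (hF (p + t • w)).hasFDerivAt.comp_hasDerivAt t h1
  have h3 := h2.inner ℝ (hasDerivAt_const t ν)
  simpa [D] using h3

namespace Imm

variable {r r' r'' : ℝ → ℝ} {f : P → E3} (I : Imm r r' r'' f)

include I

lemma df : Differentiable ℝ f := I.smooth.differentiable (by norm_num)

/-- at a point of maximum in the direction `ν` the derivatives are orthogonal to `ν` -/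
lemma crit {p : P} {ν : E3} (h : ∀ q, ⟪f q, ν⟫ ≤ ⟪f p, ν⟫) (w : P) : ⟪D w f p, ν⟫ = 0 := by
  have h1 := D_line I.df p w ν 0
  have h2 : IsLocalMax (fun t : ℝ => ⟪f (p + t • w), ν⟫) 0 := by
    apply Eventually.of_forall
    intro t
    simpa using h (p + t • w)
  have h3 := h2.deriv_eq_zero
  rw [h1.deriv] at h3
  simpa using h3

/-- the second derivative test -/
lemma hess {p : P} {ν : E3} (h : ∀ q, ⟪f q, ν⟫ ≤ ⟪f p, ν⟫) (a b : ℝ) :
    a ^ 2 * ⟪D e1 (D e1 f) p, ν⟫ + 2 * a * b * ⟪D e2 (D e1 f) p, ν⟫ +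
      b ^ 2 * ⟪D e2 (D e2 f) p, ν⟫ ≤ 0 := by
  set w : P := (a, b)
  have h1 : ∀ t, HasDerivAt (fun t : ℝ => ⟪f (p + t • w), ν⟫) ⟪D w f (p + t • w), ν⟫ t :=
    D_line I.df p w ν
  have hd : Differentiable ℝ (D w f) :=
    (D_contDiff (m := 2) I.smooth (by norm_num)).differentiable (by norm_num)
  have h2 : ∀ t, HasDerivAt (fun t : ℝ => ⟪D w f (p + t • w), ν⟫)
      ⟪D w (D w f) (p + t • w), ν⟫ t := D_line hd p w ν
  have h3 : IsLocalMax (fun t : ℝ => ⟪f (p + t • w), ν⟫) 0 := by
    apply Eventually.of_forall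
    intro t
    simpa using h (p + t • w)
  have h4 := deriv2_nonpos (h1 0).continuousAt h3
  have h5 : deriv (fun t : ℝ => ⟪f (p + t • w), ν⟫) = fun t => ⟪D w f (p + t • w), ν⟫ :=
    funext fun t => (h1 t).deriv
  rw [h5, (h2 0).deriv] at h4
  have h6 : D w (D w f) p = (a ^ 2) • D e1 (D e1 f) p + (2 * a * b) • D e2 (D e1 f) p +
      (b ^ 2) • D e2 (D e2 f) p := by
    have e : D w f = fun q => a • D e1 f q + b • D e2 f q := funext fun q => D_smul_add a b q
    have hh : HasFDerivAt (D w f) (a • fderiv ℝ (D e1 f) p + b • fderiv ℝ (D e2 f) p) p := by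
      rw [e]
      exact ((I.du p).hasFDerivAt.const_smul a).add ((I.dv p).hasFDerivAt.const_smul b)
    have key : ∀ c : P, D c (D w f) p = a • D c (D e1 f) p + b • D c (D e2 f) p := by
      intro c
      change fderiv ℝ (D w f) p c = _
      rw [hh.fderiv]
      rfl
    rw [D_smul_add a b p, key, key, I.comm p]
    module
  rw [zero_smul, add_zero, h6] at h4
  rw [inner_add_left, inner_add_left, real_inner_smul_left, real_inner_smul_left,
    real_inner_smul_left] at h4
  exact h4

/-- the normal at a point of support -/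
lemma normal_eq {p : P} {ν : E3} (hν : ‖ν‖ = 1) (h : ∀ w, ⟪D w f p, ν⟫ = 0) :
    ν = nor r f p ∨ ν = - nor r f p := by
  have h1 := I.exp p ν ν
  have a1 : ⟪ν, D e1 f p⟫ = 0 := by rw [real_inner_comm]; exact h e1
  have a2 : ⟪ν, D e2 f p⟫ = 0 := by rw [real_inner_comm]; exact h e2
  rw [a1, a2, real_inner_self_eq_norm_sq, hν] at h1
  have h2 : ⟪ν, nor r f p⟫ ^ 2 = 1 := by
    simp at h1
    nlinarith
  have hn := I.nn p
  rw [real_inner_self_eq_norm_sq] at hn
  have hn' : ‖nor r f p‖ = 1 := by nlinarith [norm_nonneg (nor r f p)]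
  have h3 : (⟪ν, nor r f p⟫ - 1) * (⟪ν, nor r f p⟫ + 1) = 0 := by nlinarith
  rcases mul_eq_zero.1 h3 with h4 | h4
  · left
    have : ‖ν - nor r f p‖ ^ 2 = 0 := by
      rw [norm_sub_sq_real, hν, hn']
      linarith
    exact sub_eq_zero.1 (norm_eq_zero.1 (pow_eq_zero_iff (two_ne_zero) |>.1 this))
  · right
    have : ‖ν + nor r f p‖ ^ 2 = 0 := by
      rw [norm_add_sq_real, hν, hn']
      linarith
    exact eq_neg_of_add_eq_zero_left (norm_eq_zero.1 (pow_eq_zero_iff (two_ne_zero) |>.1 this))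

/-- the curvature is nonnegative at a point of support -/
lemma curv {p : P} {ν : E3} (hν : ν = nor r f p ∨ ν = - nor r f p)
    (h : ∀ q, ⟪f q, ν⟫ ≤ ⟪f p, ν⟫) : r'' p.1 ≤ 0 := by
  have hr := I.pos p.1
  have hs := I.second p
  have hh := I.hess h
  set L := ⟪D e1 (D e1 f) p, nor r f p⟫
  set M := ⟪D e2 (D e1 f) p, nor r f p⟫
  set N := ⟪D e2 (D e2 f) p, nor r f p⟫
  have key : 0 ≤ L * N - M ^ 2 := by
    have quad : ∀ L M N : ℝ, (∀ a b : ℝ, a ^ 2 * L + 2 * a * b * M + b ^ 2 * N ≤ 0) →
        0 ≤ L * N - M ^ 2 := by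
      intro L M N h
      have hL : L ≤ 0 := by simpa using h 1 0
      rcases hL.lt_or_eq with hL | hL
      · have h1 := h M (-L)
        have h2 : L * (L * N - M ^ 2) ≤ 0 := by nlinarith
        by_contra hc
        push Not at hc
        nlinarith [mul_pos_of_neg_of_neg hL hc]
      · subst hL
        have hM : M = 0 := by
          by_contra hM
          have h1 := h (1 + |N|) M
          have h2 := h (-(1 + |N|)) (-M)
          have h3 : 0 < M ^ 2 := by positivity
          have h4 := neg_abs_le N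
          have h5 := abs_nonneg N
          nlinarith
        subst hM
        simp
    rcases hν with hν | hν
    · subst hν
      exact quad L M N hh
    · subst hν
      have := quad (-L) (-M) (-N) (by
        intro a b
        have := hh a b
        simp only [inner_neg_right] at this
        exact this)
      nlinarith
  rw [hs] at key
  by_contra hc
  push Not at hc
  nlinarith [mul_pos hr hc]

end Imm

end Pool.Agent.K3h74.Torus
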