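import Mathlib

/-!
# Isometric immersions of warped tori: the moving frame and the Gauss equation

`f : ℝ × ℝ → ℝ³` of class `C³` with `⟨f_s, f_s⟩ = 1`, `⟨f_s, f_θ⟩ = 0`, `⟨f_θ, f_θ⟩ = r(s)²`.
-/

set_option autoImplicit false

open MeasureTheory Set
open scoped RealInnerProductSpace ContDiff

namespace Pool.Agent.K3h74.Torus

/-- euclidean three-space -/
abbrev E3 := EuclideanSpace ℝ (Fin 3)

/-- the universal covering of the torus -/
abbrev P := ℝ × ℝ

/-- directional derivative -/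
noncomputable def D (w : P) (F : P → E3) (p : P) : E3 := fderiv ℝ F p w

/-- the first coordinate vector -/
def e1 : P := (1, 0)
/-- the second coordinate vector -/
def e2 : P := (0, 1)

lemma D_contDiff {w : P} {F : P → E3} {n m : WithTop ℕ∞} (hF : ContDiff ℝ n F) (h : m + 1 ≤ n) :
    ContDiff ℝ m (D w F) := by
  unfold D
  exact (hF.fderiv_right h).clm_apply contDiff_const

lemma D_comm {w w' : P} {F : P → E3} (hF : ContDiff ℝ 2 F) (p : P) :
    D w' (D w F) p = D w (D w' F) p := by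
  have h1 : Differentiable ℝ (fderiv ℝ F) :=
    (hF.fderiv_right (m := 1) (by norm_num)).differentiable (by norm_num)
  have key : ∀ a b : P, D a (D b F) p = (fderiv ℝ (fderiv ℝ F) p a) b := by
    intro a b
    unfold D
    rw [fderiv_clm_apply (h1 p) (differentiableAt_const b)]
    simp
  rw [key, key]
  have hs : IsSymmSndFDerivAt ℝ F p := hF.contDiffAt.isSymmSndFDerivAt (by simp)
  exact hs w' w

/-- product rule, with the derivative of the inner product prescribed -/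
lemma D_inner {w : P} {F G : P → E3} (hF : Differentiable ℝ F) (hG : Differentiable ℝ G) {c : P → ℝ}
    (h : ∀ p, ⟪F p, G p⟫ = c p) (p : P) :
    ⟪D w F p, G p⟫ + ⟪F p, D w G p⟫ = fderiv ℝ c p w := by
  have e : c = fun t => ⟪F t, G t⟫ := by
    funext t
    exact (h t).symm
  rw [e, fderiv_inner_apply ℝ (hF p) (hG p)]
  unfold D
  ring

/-- derivative of a function of the first variable -/
lemma fderiv_fst {c c' : ℝ → ℝ} (hc : ∀ s, HasDerivAt c (c' s) s) (p w : P) :
    fderiv ℝ (fun q : P => c q.1) p w = c' p.1 * w.1 := by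
  have h1 : HasFDerivAt (fun q : P => c q.1) (c' p.1 • ContinuousLinearMap.fst ℝ ℝ ℝ) p :=
    (hc p.1).comp_hasFDerivAt p hasFDerivAt_fst
  rw [h1.fderiv]
  simp

/-- the data of an isometric immersion of the plane with the metric `ds² + r(s)² dθ²` -/
structure Imm (r r' r'' : ℝ → ℝ) (f : P → E3) : Prop where
  smooth : ContDiff ℝ 3 f
  pos : ∀ s, 0 < r s
  der : ∀ s, HasDerivAt r (r' s) s
  der' : ∀ s, HasDerivAt r' (r'' s) s
  metric : ∀ p u v, ⟪fderiv ℝ f p u, fderiv ℝ f p v⟫ = u.1 * v.1 + r p.1 ^ 2 * (u.2 * v.2)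

namespace Imm

variable {r r' r'' : ℝ → ℝ} {f : P → E3} (I : Imm r r' r'' f)

include I

lemma uu (p : P) : ⟪D e1 f p, D e1 f p⟫ = 1 := by
  unfold D; rw [I.metric]; simp [e1]

lemma uv (p : P) : ⟪D e1 f p, D e2 f p⟫ = 0 := by
  unfold D; rw [I.metric]; simp [e1, e2]

lemma vv (p : P) : ⟪D e2 f p, D e2 f p⟫ = r p.1 ^ 2 := by
  unfold D; rw [I.metric]; simp [e2]

lemma cu : ContDiff ℝ 2 (D e1 f) := D_contDiff I.smooth (by norm_num)
lemma cv : ContDiff ℝ 2 (D e2 f) := D_contDiff I.smooth (by norm_num)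
lemma du : Differentiable ℝ (D e1 f) := I.cu.differentiable (by norm_num)
lemma dv : Differentiable ℝ (D e2 f) := I.cv.differentiable (by norm_num)
lemma ddu (w : P) : Differentiable ℝ (D w (D e1 f)) :=
  (D_contDiff (m := 1) I.cu (by norm_num)).differentiable (by norm_num)
lemma ddv (w : P) : Differentiable ℝ (D w (D e2 f)) :=
  (D_contDiff (m := 1) I.cv (by norm_num)).differentiable (by norm_num)

lemma comm (p : P) : D e1 (D e2 f) p = D e2 (D e1 f) p :=
  D_comm (I.smooth.of_le (by norm_num)) p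

lemma comm' : D e1 (D e2 f) = D e2 (D e1 f) := funext I.comm

/-- `⟨f_sw, f_s⟩ = 0` -/
lemma duu (w : P) (p : P) : ⟪D w (D e1 f) p, D e1 f p⟫ = 0 := by
  have h := D_inner (w := w) I.du I.du (c := fun _ => 1) I.uu p
  simp only [fderiv_fun_const, Pi.zero_apply, zero_apply] at h
  rw [real_inner_comm (D w (D e1 f) p) (D e1 f p)] at h
  linarith

lemma duv (w : P) (p : P) : ⟪D w (D e1 f) p, D e2 f p⟫ + ⟪D e1 f p, D w (D e2 f) p⟫ = 0 := by
  have h := D_inner (w := w) I.du I.dv (c := fun _ => 0) I.uv p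
  simpa only [fderiv_fun_const, Pi.zero_apply, zero_apply] using h

lemma dvv (w : P) (p : P) : ⟪D w (D e2 f) p, D e2 f p⟫ = r p.1 * r' p.1 * w.1 := by
  have h := D_inner (w := w) I.dv I.dv (c := fun q => (fun s => r s ^ 2) q.1) I.vv p
  rw [fderiv_fst (c := fun s => r s ^ 2) (c' := fun s => 2 * r s * r' s)
    (fun s => by simpa using (I.der s).fun_pow 2)] at h
  rw [real_inner_comm (D w (D e2 f) p) (D e2 f p)] at h
  linarith

/-- `⟨f_ss, f_θ⟩ = 0` -/
lemma u1v (p : P) : ⟪D e1 (D e1 f) p, D e2 f p⟫ = 0 := by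
  have h := I.duv e1 p
  rw [I.comm p, real_inner_comm (D e2 (D e1 f) p) (D e1 f p), I.duu e2 p] at h
  linarith

/-- `⟨f_sθ, f_θ⟩ = r r'` -/
lemma u2v (p : P) : ⟪D e2 (D e1 f) p, D e2 f p⟫ = r p.1 * r' p.1 := by
  have h := I.dvv e1 p
  rw [I.comm p] at h
  simpa [e1] using h

/-- `⟨f_θθ, f_s⟩ = - r r'` -/
lemma v2u (p : P) : ⟪D e2 (D e2 f) p, D e1 f p⟫ = - (r p.1 * r' p.1) := by
  have h := I.duv e2 p
  rw [I.u2v p, real_inner_comm] at h
  linarith

/-- `⟨f_θθ, f_θ⟩ = 0` -/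
lemma v2v (p : P) : ⟪D e2 (D e2 f) p, D e2 f p⟫ = 0 := by
  have h := I.dvv e2 p
  simpa [e2] using h

/-- the Gauss equation before the frame is used -/
lemma gauss (p : P) : ⟪D e1 (D e1 f) p, D e2 (D e2 f) p⟫ -
    ⟪D e2 (D e1 f) p, D e2 (D e1 f) p⟫ = - (r' p.1 ^ 2 + r p.1 * r'' p.1) := by
  have h1 := D_inner (w := e2) (I.ddu e1) I.dv (c := fun _ => 0) I.u1v p
  simp only [fderiv_fun_const, Pi.zero_apply, zero_apply] at h1
  have h2 := D_inner (w := e1) (I.ddu e2) I.dv (c := fun q => (fun s => r s * r' s) q.1) I.u2v p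
  rw [fderiv_fst (c := fun s => r s * r' s) (c' := fun s => r' s * r' s + r s * r'' s)
    (fun s => (I.der s).mul (I.der' s)), I.comm p] at h2
  have h3 : D e2 (D e1 (D e1 f)) p = D e1 (D e2 (D e1 f)) p := D_comm I.cu p
  rw [h3] at h1
  simp only [e1] at h2
  simp only [e1] at h1
  simp only [e1]
  linarith

end Imm

end Pool.Agent.K3h74.Torus
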