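import Pool.Agent.K3h74.Torus.Curv

/-!
# The total positive curvature of an immersed torus is at least `4π`
-/

set_option autoImplicit false

open MeasureTheory Set Filter Topology
open scoped RealInnerProductSpace ContDiff ENNReal

namespace Pool.Agent.K3h74.Torus

/-- points of support on the side of the normal -/
def A (r : ℝ → ℝ) (f : P → E3) : Set P := {p | ∀ q, ⟪f q, nor r f p⟫ ≤ ⟪f p, nor r f p⟫}

/-- points of support on the other side -/
def B (r : ℝ → ℝ) (f : P → E3) : Set P := {p | ∀ q, ⟪f p, nor r f p⟫ ≤ ⟪f q, nor r f p⟫}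

/-- periodicity with respect to the lattice `(2πℤ)²` -/
def Periodic2 {X : Type*} (f : P → X) : Prop :=
  ∀ (p : P) (m n : ℤ), f (p.1 + m * (2 * Real.pi), p.2 + n * (2 * Real.pi)) = f p

lemma Periodic2.reduce {X : Type*} {f : P → X} (h : Periodic2 f) (q : P) :
    ∃ p : P, (0 ≤ p.1 ∧ p.1 < 2 * Real.pi) ∧ (0 ≤ p.2 ∧ p.2 < 2 * Real.pi) ∧ f p = f q := by
  have hpi : 0 < 2 * Real.pi := by positivity
  have key : ∀ x : ℝ, 0 ≤ x + (-⌊x / (2 * Real.pi)⌋ : ℤ) * (2 * Real.pi) ∧
      x + (-⌊x / (2 * Real.pi)⌋ : ℤ) * (2 * Real.pi) < 2 * Real.pi := by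
    intro x
    have h1 := Int.floor_le (x / (2 * Real.pi))
    have h2 := Int.lt_floor_add_one (x / (2 * Real.pi))
    rw [le_div_iff₀ hpi] at h1
    rw [div_lt_iff₀ hpi] at h2
    push_cast
    constructor <;> linarith
  exact ⟨_, key q.1, key q.2, h q _ _⟩

lemma exists_max {f : P → E3} (hf : Continuous f) (h : Periodic2 f) (ν : E3) :
    ∃ p : P, (0 ≤ p.1 ∧ p.1 < 2 * Real.pi) ∧ (0 ≤ p.2 ∧ p.2 < 2 * Real.pi) ∧
      ∀ q, ⟪f q, ν⟫ ≤ ⟪f p, ν⟫ := by
  have hpi : 0 < 2 * Real.pi := by positivity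
  have hc : Continuous fun q => ⟪f q, ν⟫ := hf.inner continuous_const
  obtain ⟨p0, -, hp0⟩ := (isCompact_Icc (a := ((0 : ℝ), (0 : ℝ)))
    (b := (2 * Real.pi, 2 * Real.pi))).exists_isMaxOn
    ⟨(0, 0), by simp [hpi.le]⟩ hc.continuousOn
  obtain ⟨p, h1, h2, h3⟩ := h.reduce p0
  refine ⟨p, h1, h2, fun q => ?_⟩
  obtain ⟨q', h1', h2', h3'⟩ := h.reduce q
  rw [h3, ← h3']
  exact hp0 (show q' ∈ Icc _ _ from ⟨⟨h1'.1, h2'.1⟩, ⟨h1'.2.le, h2'.2.le⟩⟩)

/-- the box -/
def box : Set E3 := {x | (0 ≤ x 0 ∧ x 0 < 2 * Real.pi) ∧ (0 ≤ x 1 ∧ x 1 < 2 * Real.pi) ∧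
  (0 < x 2 ∧ x 2 < 1)}

lemma box_meas : MeasurableSet box := by
  have h0 : Measurable fun x : E3 => x 0 := (EuclideanSpace.proj (𝕜 := ℝ) (0 : Fin 3)).measurable
  have h1 : Measurable fun x : E3 => x 1 := (EuclideanSpace.proj (𝕜 := ℝ) (1 : Fin 3)).measurable
  have h2 : Measurable fun x : E3 => x 2 := (EuclideanSpace.proj (𝕜 := ℝ) (2 : Fin 3)).measurable
  unfold box
  refine MeasurableSet.inter (MeasurableSet.inter ?_ ?_)
    (MeasurableSet.inter (MeasurableSet.inter ?_ ?_) (MeasurableSet.inter ?_ ?_))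
  · exact measurableSet_le measurable_const h0
  · exact measurableSet_lt h0 measurable_const
  · exact measurableSet_le measurable_const h1
  · exact measurableSet_lt h1 measurable_const
  · exact measurableSet_lt measurable_const h2
  · exact measurableSet_lt h2 measurable_const

/-- the part of the box above a set of the plane -/
def lift (S : Set P) : Set E3 := {x | x ∈ box ∧ (x 0, x 1) ∈ S}

lemma lift_meas {S : Set P} (hS : MeasurableSet S) : MeasurableSet (lift S) := by
  have h0 : Measurable fun x : E3 => x 0 := (EuclideanSpace.proj (𝕜 := ℝ) (0 : Fin 3)).measurable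
  have h1 : Measurable fun x : E3 => x 1 := (EuclideanSpace.proj (𝕜 := ℝ) (1 : Fin 3)).measurable
  exact box_meas.inter ((h0.prodMk h1) hS)

namespace Imm

variable {r r' r'' : ℝ → ℝ} {f : P → E3} (I : Imm r r' r'' f)

include I

lemma cn : Continuous (nor r f) := I.dn.continuous
lemma cf : Continuous f := I.df.continuous

lemma A_meas : MeasurableSet (A r f) := by
  apply IsClosed.measurableSet
  have : A r f = ⋂ q : P, {p | ⟪f q, nor r f p⟫ ≤ ⟪f p, nor r f p⟫} := by
    ext p; simp [A]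
  rw [this]
  exact isClosed_iInter fun q => isClosed_le (continuous_const.inner I.cn) (I.cf.inner I.cn)

lemma B_meas : MeasurableSet (B r f) := by
  apply IsClosed.measurableSet
  have : B r f = ⋂ q : P, {p | ⟪f p, nor r f p⟫ ≤ ⟪f q, nor r f p⟫} := by
    ext p; simp [B]
  rw [this]
  exact isClosed_iInter fun q => isClosed_le (I.cf.inner I.cn) (continuous_const.inner I.cn)

lemma norm_nor (p : P) : ‖nor r f p‖ = 1 := by
  have hn := I.nn p
  rw [real_inner_self_eq_norm_sq] at hn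
  nlinarith [norm_nonneg (nor r f p)]

lemma A_curv {p : P} (hp : p ∈ A r f) : r'' p.1 ≤ 0 := I.curv (Or.inl rfl) hp

lemma B_neg {p : P} (hp : p ∈ B r f) : ∀ q, ⟪f q, - nor r f p⟫ ≤ ⟪f p, - nor r f p⟫ := by
  intro q
  rw [inner_neg_right, inner_neg_right]
  linarith [hp q]

lemma B_curv {p : P} (hp : p ∈ B r f) : r'' p.1 ≤ 0 := I.curv (Or.inr rfl) (I.B_neg hp)

lemma disj (hper : Periodic2 f) : Disjoint (A r f) (B r f) := by
  rw [Set.disjoint_left]
  intro p hA hB
  have h1 : ∀ q, ⟪f q, nor r f p⟫ = ⟪f p, nor r f p⟫ := fun q => le_antisymm (hA q) (hB q)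
  -- `f` is in a plane
  have h2 : ∀ q w, ⟪D w f q, nor r f p⟫ = 0 := by
    intro q w
    exact I.crit (fun q' => by rw [h1, h1 q]) w
  have he : ‖D e1 f p‖ = 1 := by
    have := I.uu p
    rw [real_inner_self_eq_norm_sq] at this
    nlinarith [norm_nonneg (D e1 f p)]
  obtain ⟨q, -, -, hq⟩ := exists_max I.cf hper (D e1 f p)
  have h3 := I.normal_eq he (fun w => I.crit hq w)
  have h4 := I.normal_eq (I.norm_nor p) (h2 q)
  have h5 : ⟪nor r f p, D e1 f p⟫ = 0 := I.nu p
  have h6 := I.nn q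
  rcases h3 with h3 | h3 <;> rcases h4 with h4 | h4 <;> rw [h3, h4] at h5 <;>
    (try simp only [inner_neg_left, inner_neg_right] at h5) <;> linarith

/-- every vector in the ball is in the image of the two supporting sets -/
lemma cover (hper : Periodic2 f) : Metric.ball (0 : E3) 1 \ {0} ⊆
    Phi r f '' lift (A r f) ∪ Neg.neg ⁻¹' (Phi r f '' lift (B r f)) := by
  intro y hy
  have hy1 : ‖y‖ < 1 := by simpa using hy.1
  have hy0 : y ≠ 0 := by simpa using hy.2
  have hpos : 0 < ‖y‖ := norm_pos_iff.2 hy0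
  set ν : E3 := ‖y‖⁻¹ • y
  have hν : ‖ν‖ = 1 := by
    rw [norm_smul, norm_inv, norm_norm, inv_mul_cancel₀ hpos.ne']
  have hyν : y = ‖y‖ • ν := by
    rw [smul_smul, mul_inv_cancel₀ hpos.ne', one_smul]
  obtain ⟨p, hp1, hp2, hp⟩ := exists_max I.cf hper ν
  let x : E3 := !₂[p.1, p.2, ‖y‖]
  have x0 : x 0 = p.1 := rfl
  have x1 : x 1 = p.2 := rfl
  have x2 : x 2 = ‖y‖ := rfl
  have hxp : ((x 0, x 1) : P) = p := rfl
  have hbox : x ∈ box := ⟨hp1, hp2, hpos, hy1⟩
  rcases I.normal_eq hν (fun w => I.crit hp w) with h | h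
  · left
    refine ⟨x, ⟨hbox, ?_⟩, ?_⟩
    · rw [hxp]
      intro q
      rw [← h]
      exact hp q
    · unfold Phi
      rw [hxp, x2, ← h]
      exact hyν.symm
  · right
    refine ⟨x, ⟨hbox, ?_⟩, ?_⟩
    · rw [hxp]
      intro q
      have := hp q
      rw [h, inner_neg_right, inner_neg_right] at this
      linarith
    · unfold Phi
      rw [hxp, x2]
      have : nor r f p = - ν := by rw [h, neg_neg]
      rw [this, smul_neg, ← hyν]

/-- the image of a part of the box over a set with nonnegative curvature -/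
lemma image_le {S : Set P} (hS : MeasurableSet S) (hc : ∀ p ∈ S, r'' p.1 ≤ 0) :
    volume (Phi r f '' lift S) ≤
      ∫⁻ x in lift S, ENNReal.ofReal (x 2 ^ 2 * max (- r'' (x 0)) 0) := by
  refine (addHaar_image_le_lintegral_abs_det_fderiv volume (lift_meas hS)
    (fun x _ => (I.Phi_diff x).hasFDerivAt.hasFDerivWithinAt)).trans ?_
  refine setLIntegral_mono' (lift_meas hS) ?_
  intro x hx
  rw [I.Phi_det]
  have := hc _ hx.2
  simp only at this
  rw [abs_of_nonpos this, max_eq_left (by linarith)]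

lemma total (hper : Periodic2 f) : volume (Metric.ball (0 : E3) 1) ≤
    ∫⁻ x in box, ENNReal.ofReal (x 2 ^ 2 * max (- r'' (x 0)) 0) := by
  have h1 : volume (Metric.ball (0 : E3) 1) = volume (Metric.ball (0 : E3) 1 \ {0}) :=
    (measure_sdiff_null (measure_singleton _)).symm
  rw [h1]
  refine (measure_mono (I.cover hper)).trans ((measure_union_le _ _).trans ?_)
  rw [Measure.measure_preimage_neg]
  refine (add_le_add (I.image_le I.A_meas fun p hp => I.A_curv hp)
    (I.image_le I.B_meas fun p hp => I.B_curv hp)).trans ?_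
  have hd : Disjoint (lift (A r f)) (lift (B r f)) := by
    rw [Set.disjoint_left]
    intro x hx hx'
    exact Set.disjoint_left.1 (I.disj hper) hx.2 hx'.2
  rw [← lintegral_union (lift_meas I.B_meas) hd]
  exact lintegral_mono_set (union_subset (fun x hx => hx.1) (fun x hx => hx.1))

end Imm

end Pool.Agent.K3h74.Torus
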