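import Pool.Agent.K3h74.Torus.Frame

/-!
# The unit normal and its derivatives
-/

set_option autoImplicit false

open MeasureTheory Set
open scoped RealInnerProductSpace ContDiff

namespace Pool.Agent.K3h74.Torus

/-- the vector product -/
noncomputable def cross (a b : E3) : E3 :=
  !₂[a 1 * b 2 - a 2 * b 1, a 2 * b 0 - a 0 * b 2, a 0 * b 1 - a 1 * b 0]

lemma inner3 (a b : E3) : ⟪a, b⟫ = a 0 * b 0 + a 1 * b 1 + a 2 * b 2 := by
  rw [PiLp.inner_apply, Fin.sum_univ_three]
  simp only [RCLike.inner_apply, conj_trivial]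
  ring

lemma cross_left (a b : E3) : ⟪cross a b, a⟫ = 0 := by
  rw [inner3]; simp [cross]; ring

lemma cross_right (a b : E3) : ⟪cross a b, b⟫ = 0 := by
  rw [inner3]; simp [cross]; ring

lemma cross_self (a b : E3) : ⟪cross a b, cross a b⟫ = ⟪a, a⟫ * ⟪b, b⟫ - ⟪a, b⟫ ^ 2 := by
  rw [inner3, inner3, inner3, inner3]; simp [cross]; ring

/-- expansion of the inner product in an orthonormal frame -/
lemma expand {a b c : E3} (haa : ⟪a, a⟫ = (1 : ℝ)) (hbb : ⟪b, b⟫ = (1 : ℝ)) (hcc : ⟪c, c⟫ = (1 : ℝ))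
    (hab : ⟪a, b⟫ = (0 : ℝ)) (hac : ⟪a, c⟫ = (0 : ℝ)) (hbc : ⟪b, c⟫ = (0 : ℝ)) (x y : E3) :
    ⟪x, y⟫ = ⟪x, a⟫ * ⟪y, a⟫ + ⟪x, b⟫ * ⟪y, b⟫ + ⟪x, c⟫ * ⟪y, c⟫ := by
  have hn : ∀ z : E3, ⟪z, z⟫ = (1 : ℝ) → ‖z‖ = 1 := by
    intro z hz
    rw [real_inner_self_eq_norm_sq] at hz
    nlinarith [norm_nonneg z]
  have ho : Orthonormal ℝ ![a, b, c] := by
    refine ⟨?_, ?_⟩
    · intro i
      fin_cases i
      · exact hn a haa
      · exact hn b hbb
      · exact hn c hcc
    · intro i j hij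
      fin_cases i <;> fin_cases j
      · exact absurd rfl hij
      · exact hab
      · exact hac
      · exact (real_inner_comm _ _).trans hab
      · exact absurd rfl hij
      · exact hbc
      · exact (real_inner_comm _ _).trans hac
      · exact (real_inner_comm _ _).trans hbc
      · exact absurd rfl hij
  have hcard : Fintype.card (Fin 3) = Module.finrank ℝ E3 := by simp
  let B := basisOfOrthonormalOfCardEqFinrank ho hcard
  have hB : ⇑B = ![a, b, c] := coe_basisOfOrthonormalOfCardEqFinrank ho hcard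
  let O := B.toOrthonormalBasis (by rw [hB]; exact ho)
  have hO : ⇑O = ![a, b, c] := by
    rw [Module.Basis.coe_toOrthonormalBasis, hB]
  have h := O.sum_inner_mul_inner x y
  rw [Fin.sum_univ_three] at h
  simp only [hO, Matrix.cons_val_zero, Matrix.cons_val_one, Matrix.cons_val] at h
  rw [← h, real_inner_comm y a, real_inner_comm y b, real_inner_comm y c]

/-- the unit normal -/
noncomputable def nor (r : ℝ → ℝ) (f : P → E3) (p : P) : E3 :=
  (r p.1)⁻¹ • cross (D e1 f p) (D e2 f p)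

namespace Imm

variable {r r' r'' : ℝ → ℝ} {f : P → E3} (I : Imm r r' r'' f)

include I

lemma nn (p : P) : ⟪nor r f p, nor r f p⟫ = 1 := by
  unfold nor
  rw [real_inner_smul_left, real_inner_smul_right, cross_self, I.uu, I.vv, I.uv]
  have := I.pos p.1
  field_simp
  ring

lemma nu (p : P) : ⟪nor r f p, D e1 f p⟫ = 0 := by
  unfold nor
  rw [real_inner_smul_left, cross_left, mul_zero]

lemma nv (p : P) : ⟪nor r f p, D e2 f p⟫ = 0 := by
  unfold nor
  rw [real_inner_smul_left, cross_right, mul_zero]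

lemma dr : Differentiable ℝ r := fun s => (I.der s).differentiableAt

lemma dn : Differentiable ℝ (nor r f) := by
  have h1 : Differentiable ℝ (fun p : P => (r p.1)⁻¹) := by
    intro p
    exact ((I.dr p.1).comp p differentiableAt_fst).inv (I.pos p.1).ne'
  have hu : ∀ i, Differentiable ℝ (fun p => (D e1 f p) i) := differentiable_euclidean.1 I.du
  have hv : ∀ i, Differentiable ℝ (fun p => (D e2 f p) i) := differentiable_euclidean.1 I.dv
  have h2 : Differentiable ℝ (fun p : P => cross (D e1 f p) (D e2 f p)) := by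
    rw [differentiable_euclidean]
    intro i
    fin_cases i
    · simpa [cross] using ((hu 1).fun_mul (hv 2)).fun_sub ((hu 2).fun_mul (hv 1))
    · simpa [cross] using ((hu 2).fun_mul (hv 0)).fun_sub ((hu 0).fun_mul (hv 2))
    · simpa [cross] using ((hu 0).fun_mul (hv 1)).fun_sub ((hu 1).fun_mul (hv 0))
  exact h1.smul h2

/-- expansion in the frame of the surface -/
lemma exp (p : P) (x y : E3) : ⟪x, y⟫ = ⟪x, D e1 f p⟫ * ⟪y, D e1 f p⟫ +
    ⟪x, D e2 f p⟫ * ⟪y, D e2 f p⟫ / r p.1 ^ 2 + ⟪x, nor r f p⟫ * ⟪y, nor r f p⟫ := by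
  have hr := I.pos p.1
  have h := expand (a := D e1 f p) (b := (r p.1)⁻¹ • D e2 f p) (c := nor r f p) (I.uu p)
    (by rw [real_inner_smul_left, real_inner_smul_right, I.vv]; field_simp)
    (I.nn p) (by rw [real_inner_smul_right, I.uv, mul_zero])
    (by rw [real_inner_comm]; exact I.nu p)
    (by rw [real_inner_smul_left, real_inner_comm, I.nv, mul_zero]) x y
  rw [h, real_inner_smul_right, real_inner_smul_right]
  field_simp

/-- `L = ⟨f_ss, n⟩` etc. -/
lemma second (p : P) :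
    ⟪D e1 (D e1 f) p, nor r f p⟫ * ⟪D e2 (D e2 f) p, nor r f p⟫ -
      ⟪D e2 (D e1 f) p, nor r f p⟫ ^ 2 = - (r p.1 * r'' p.1) := by
  have hr := I.pos p.1
  have h := I.gauss p
  rw [I.exp p (D e1 (D e1 f) p), I.exp p (D e2 (D e1 f) p), I.duu e1 p, I.duu e2 p, I.u1v p,
    I.u2v p, I.v2v p] at h
  field_simp at h
  apply mul_left_cancel₀ (pow_ne_zero 2 hr.ne')
  linear_combination h

lemma dnn (w : P) (p : P) : ⟪D w (nor r f) p, nor r f p⟫ = 0 := by
  have h := D_inner (w := w) I.dn I.dn (c := fun _ => 1) I.nn p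
  simp only [fderiv_fun_const, Pi.zero_apply, zero_apply] at h
  rw [real_inner_comm (D w (nor r f) p) (nor r f p)] at h
  linarith

lemma dnu (w : P) (p : P) : ⟪D w (nor r f) p, D e1 f p⟫ = - ⟪D w (D e1 f) p, nor r f p⟫ := by
  have h := D_inner (w := w) I.dn I.du (c := fun _ => 0) I.nu p
  simp only [fderiv_fun_const, Pi.zero_apply, zero_apply] at h
  rw [real_inner_comm (D w (D e1 f) p) (nor r f p)] at h
  linarith

lemma dnv (w : P) (p : P) : ⟪D w (nor r f) p, D e2 f p⟫ = - ⟪D w (D e2 f) p, nor r f p⟫ := by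
  have h := D_inner (w := w) I.dn I.dv (c := fun _ => 0) I.nv p
  simp only [fderiv_fun_const, Pi.zero_apply, zero_apply] at h
  rw [real_inner_comm (D w (D e2 f) p) (nor r f p)] at h
  linarith

/-- the Gram determinant of the derivatives of the normal -/
lemma gram (p : P) : ⟪D e1 (nor r f) p, D e1 (nor r f) p⟫ * ⟪D e2 (nor r f) p, D e2 (nor r f) p⟫ -
    ⟪D e1 (nor r f) p, D e2 (nor r f) p⟫ ^ 2 = r'' p.1 ^ 2 := by
  have hr := I.pos p.1
  have h := I.second p
  rw [I.exp p (D e1 (nor r f) p), I.exp p (D e2 (nor r f) p), I.exp p (D e1 (nor r f) p) (D e2 (nor r f) p),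
    I.dnn, I.dnn, I.dnu, I.dnu, I.dnv, I.dnv, I.comm p]
  set L := ⟪D e1 (D e1 f) p, nor r f p⟫
  set M := ⟪D e2 (D e1 f) p, nor r f p⟫
  set N := ⟪D e2 (D e2 f) p, nor r f p⟫
  have e : (-L * -L + -M * -M / r p.1 ^ 2 + 0 * 0) * (-M * -M + -N * -N / r p.1 ^ 2 + 0 * 0) -
      (-L * -M + -M * -N / r p.1 ^ 2 + 0 * 0) ^ 2 = (L * N - M ^ 2) ^ 2 / r p.1 ^ 2 := by
    field_simp
    ring
  rw [e, h]
  field_simp

end Imm

end Pool.Agent.K3h74.Torus
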