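import Pool.Agent.K3h74.Torus.Global

/-!
# The theorem on the total positive curvature for warped metrics
-/

set_option autoImplicit false

open MeasureTheory Set Filter Topology
open scoped RealInnerProductSpace ContDiff ENNReal

namespace Pool.Agent.K3h74.Torus

/-- the factors -/
noncomputable def gg (c : ℝ → ℝ) : Fin 3 → ℝ → ℝ :=
  ![(Ico 0 (2 * Real.pi)).indicator c, (Ico 0 (2 * Real.pi)).indicator (fun _ => 1),
    (Ioo 0 1).indicator (fun t => t ^ 2)]

lemma gg_int {c : ℝ → ℝ} (hc : Continuous c) (i : Fin 3) : Integrable (gg c i) := by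
  fin_cases i
  · change Integrable ((Ico 0 (2 * Real.pi)).indicator c)
    rw [integrable_indicator_iff measurableSet_Ico]
    exact (hc.continuousOn.integrableOn_Icc).mono_set Ico_subset_Icc_self
  · change Integrable ((Ico 0 (2 * Real.pi)).indicator (fun _ => (1 : ℝ)))
    rw [integrable_indicator_iff measurableSet_Ico]
    exact (continuous_const.continuousOn.integrableOn_Icc).mono_set Ico_subset_Icc_self
  · change Integrable ((Ioo 0 1).indicator (fun t : ℝ => t ^ 2))
    rw [integrable_indicator_iff measurableSet_Ioo]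
    exact ((continuous_pow 2).continuousOn.integrableOn_Icc).mono_set Ioo_subset_Icc_self

lemma gg_integral (c : ℝ → ℝ) : ∏ i, ∫ t, gg c i t =
    (∫ s in (0 : ℝ)..(2 * Real.pi), c s) * (2 * Real.pi) * (1 / 3) := by
  have hpi : (0 : ℝ) ≤ 2 * Real.pi := by positivity
  rw [Fin.prod_univ_three]
  simp only [gg, Matrix.cons_val_zero, Matrix.cons_val_one, Matrix.cons_val]
  rw [integral_indicator measurableSet_Ico, integral_indicator measurableSet_Ico,
    integral_indicator measurableSet_Ioo, integral_Ico_eq_integral_Ioc,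
    ← intervalIntegral.integral_of_le hpi, ← integral_Ioc_eq_integral_Ioo,
    ← intervalIntegral.integral_of_le zero_le_one, integral_pow]
  congr 1
  · congr 1
    simp [hpi]
  · norm_num

lemma box_integral {c : ℝ → ℝ} (hc : Continuous c) (h0 : ∀ s, 0 ≤ c s) :
    ∫⁻ x in box, ENNReal.ofReal (x 2 ^ 2 * c (x 0)) =
      ENNReal.ofReal ((∫ s in (0 : ℝ)..(2 * Real.pi), c s) * (2 * Real.pi) * (1 / 3)) := by
  have hmp := EuclideanSpace.volume_preserving_symm_measurableEquiv_toLp (Fin 3)
  have hgm : Measurable fun x : Fin 3 → ℝ => ENNReal.ofReal (∏ i, gg c i (x i)) := by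
    apply ENNReal.measurable_ofReal.comp
    apply Finset.measurable_prod
    intro i _
    have hm : Measurable (gg c i) := by
      fin_cases i
      · exact hc.measurable.indicator measurableSet_Ico
      · exact measurable_const.indicator measurableSet_Ico
      · exact (continuous_pow 2).measurable.indicator measurableSet_Ioo
    exact hm.comp (measurable_pi_apply i)
  have h1 : ∫⁻ x in box, ENNReal.ofReal (x 2 ^ 2 * c (x 0)) =
      ∫⁻ x : E3, ENNReal.ofReal (∏ i, gg c i (x i)) := by
    rw [← lintegral_indicator box_meas]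
    congr 1
    funext x
    rw [Fin.prod_univ_three]
    simp only [gg, Matrix.cons_val_zero, Matrix.cons_val_one, Matrix.cons_val]
    by_cases hx : x ∈ box
    · rw [indicator_of_mem hx, indicator_of_mem (show x 0 ∈ Ico 0 (2 * Real.pi) from hx.1),
        indicator_of_mem (show x 1 ∈ Ico 0 (2 * Real.pi) from hx.2.1),
        indicator_of_mem (show x 2 ∈ Ioo 0 1 from hx.2.2)]
      congr 1
      ring
    · rw [indicator_of_notMem hx]
      symm
      rw [ENNReal.ofReal_eq_zero]
      apply le_of_eq
      by_cases h0 : x 0 ∈ Ico 0 (2 * Real.pi)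
      · by_cases h1 : x 1 ∈ Ico 0 (2 * Real.pi)
        · by_cases h2 : x 2 ∈ Ioo (0 : ℝ) 1
          · exact absurd ⟨h0, h1, h2⟩ hx
          · rw [indicator_of_notMem h2, mul_zero]
        · rw [indicator_of_notMem h1, mul_zero, zero_mul]
      · rw [indicator_of_notMem h0, zero_mul, zero_mul]
  have h2 : ∫⁻ x : E3, ENNReal.ofReal (∏ i, gg c i (x i)) =
      ∫⁻ x : Fin 3 → ℝ, ENNReal.ofReal (∏ i, gg c i (x i)) :=
    hmp.lintegral_comp hgm
  have h3 : Integrable (fun x : Fin 3 → ℝ => ∏ i, gg c i (x i)) :=
    Integrable.fintype_prod (fun i => gg_int hc i)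
  have h4 : 0 ≤ᵐ[volume] (fun x : Fin 3 → ℝ => ∏ i, gg c i (x i)) := by
    apply Eventually.of_forall
    intro x
    apply Finset.prod_nonneg
    intro i _
    fin_cases i
    · exact indicator_nonneg (fun s _ => h0 s) _
    · exact indicator_nonneg (fun _ _ => zero_le_one) _
    · exact indicator_nonneg (fun t _ => sq_nonneg t) _
  rw [h1, h2, ← ofReal_integral_eq_lintegral_ofReal h3 h4, integral_fintype_prod_volume_eq_prod,
    gg_integral]

/-- **The total positive curvature**: for an isometric immersion of the torus with the metric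
`ds² + r(s)² dθ²` (`s, θ` modulo `2π`) one has `2π ∫ (-r'')⁺ ds ≥ 4π`. -/
theorem Imm.two_le {r r' r'' : ℝ → ℝ} {f : P → E3} (I : Imm r r' r'' f) (hper : Periodic2 f)
    (hc : Continuous r'') : 2 ≤ ∫ s in (0 : ℝ)..(2 * Real.pi), max (- r'' s) 0 := by
  have h := I.total hper
  have hc' : Continuous fun s => max (- r'' s) 0 := hc.neg.max continuous_const
  rw [box_integral hc' (fun s => le_max_right _ _), EuclideanSpace.volume_ball_fin_three] at h
  simp only [ENNReal.ofReal_one, one_pow, one_mul] at h
  have hpi := Real.pi_pos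
  have hpos : 0 ≤ ∫ s in (0 : ℝ)..(2 * Real.pi), max (- r'' s) 0 :=
    intervalIntegral.integral_nonneg (by positivity) (fun s _ => le_max_right _ _)
  rw [ENNReal.ofReal_le_ofReal_iff (by positivity)] at h
  nlinarith

end Pool.Agent.K3h74.Torus
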